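import Pool.Agent.Helper37.KDB.Extra

/-! Project KDB, piece P9. -/

set_option autoImplicit false

namespace KDB.I.P9

open MeasureTheory KDB
open scoped ENNReal

variable (p : Par)

theorem mst_spec (hp : p.Ok) (t j : ℕ) (hj : j < t) (ht : t ≤ p.tau p.n) :
    p.mst t j < p.n ∧ t - j ≤ MM * p.tau (p.mst t j + 1) := by
  have hn := hp.hn
  have h0 : t - j ≤ MM * p.tau (p.n - 1 + 1) := by
    rw [Nat.sub_add_cancel hn]
    have : p.tau p.n ≤ MM * p.tau p.n := Nat.le_mul_of_pos_left _ (by norm_num [MM])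
    omega
  have hh : ∃ i, t - j ≤ MM * p.tau (i + 1) := ⟨p.n - 1, h0⟩
  classical
  unfold Par.mst
  rw [dif_pos hh]
  refine ⟨?_, Nat.find_spec hh⟩
  have h1 : Nat.find hh ≤ p.n - 1 := Nat.find_min' hh h0
  omega

/-- sums over steps are at most sums over levels -/
theorem sum_mst (hp : p.Ok) (t : ℕ) (ht : t ≤ p.tau p.n) (f : ℕ → ℕ → ℝ)
    (hf : ∀ m j, 0 ≤ f m j) :
    ∑ j ∈ Finset.range t, f (p.mst t j) j ≤
      ∑ m ∈ Finset.range p.n, ∑ j ∈ Finset.Ico (t - MM * p.tau (m + 1)) t, f m j := by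
  have hmaps : ∀ j ∈ Finset.range t, p.mst t j ∈ Finset.range p.n := fun j hj =>
    Finset.mem_range.2 (mst_spec p hp t j (Finset.mem_range.1 hj) ht).1
  rw [← Finset.sum_fiberwise_of_maps_to hmaps]
  refine Finset.sum_le_sum fun m _ => ?_
  have h1 : ∑ j ∈ Finset.range t with p.mst t j = m, f (p.mst t j) j =
      ∑ j ∈ Finset.range t with p.mst t j = m, f m j :=
    Finset.sum_congr rfl fun j hj => by rw [(Finset.mem_filter.1 hj).2]
  rw [h1]
  refine Finset.sum_le_sum_of_subset_of_nonneg ?_ fun j _ _ => hf m j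
  intro j hj
  obtain ⟨hj1, hj2⟩ := Finset.mem_filter.1 hj
  have hj3 := Finset.mem_range.1 hj1
  have := (mst_spec p hp t j hj3 ht).2
  rw [hj2] at this
  rw [Finset.mem_Ico]
  omega

theorem trap_bounds (u : ℝ) : 0 ≤ Par.trap u ∧ Par.trap u ≤ 1 := by
  unfold Par.trap
  exact ⟨le_max_left _ _, max_le zero_le_one (min_le_left _ _)⟩

theorem chi_bounds (k j : ℕ) : 0 ≤ p.chi k j ∧ p.chi k j ≤ 1 := by
  unfold Par.chi
  split_ifs
  · exact trap_bounds _
  · exact trap_bounds _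
  · exact ⟨le_rfl, zero_le_one⟩

/-- crude mass bound for high levels -/
theorem ring_crude (hp : p.Ok) (k a c : ℕ) :
    ∑ j ∈ Finset.Ico a c, p.pring k j ≤ p.mu * ((c - a : ℕ) : ℝ) / p.W k := by
  have hmu := hp.hmu
  have h1 : ∀ j ∈ Finset.Ico a c, p.pring k j ≤ p.mu / p.W k := by
    intro j _
    unfold Par.pring
    have := (chi_bounds p k j).2
    have hW : (0 : ℝ) ≤ p.W k := Nat.cast_nonneg _
    exact div_le_div_of_nonneg_right (by nlinarith) hW
  refine (Finset.sum_le_sum h1).trans (le_of_eq ?_)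
  rw [Finset.sum_const, Nat.card_Ico, nsmul_eq_mul]
  ring

end KDB.I.P9
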