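import Pool.Agent.Helper37.KDB.Extra

/-! Project KDB, piece C3. -/

set_option autoImplicit false

namespace KDB.I.C3

open MeasureTheory KDB
open scoped ENNReal

variable (p : Par)

theorem uw_emd {d : ℕ} (N : ℕ) (hN : 0 < N) (a : Fin d → ℤ) :
    uw N (Par.emd N a) = ENNReal.ofReal (Real.exp (-(d * Real.log N))) := by
  have hN' : (0 : ℤ) < (N : ℤ) := by exact_mod_cast hN
  have hNr : (0 : ℝ) < (N : ℝ) := by exact_mod_cast hN
  unfold uw
  rw [if_pos (fun i => ⟨Int.emod_nonneg _ hN'.ne', Int.emod_lt_of_pos _ hN'⟩)]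
  rw [Real.exp_neg, ENNReal.ofReal_inv_of_pos (Real.exp_pos _), mul_comm, Real.exp_mul,
    Real.exp_log hNr, Real.rpow_natCast, ENNReal.ofReal_pow hNr.le, ENNReal.ofReal_natCast]

theorem gw_eq (n : ℕ) : gw n = ENNReal.ofReal (Real.exp (-((n + 1 : ℕ) * Real.log 2))) := by
  unfold gw
  rw [Real.exp_neg, ENNReal.ofReal_inv_of_pos (Real.exp_pos _), mul_comm, Real.exp_mul,
    Real.exp_log (by norm_num : (0 : ℝ) < 2), Real.rpow_natCast,
    ENNReal.ofReal_pow (by norm_num : (0 : ℝ) ≤ 2)]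
  norm_num

theorem L_pos (hp : p.Ok) : 0 < p.L := by have := hp.hL; omega

theorem ell_pos (hp : p.Ok) : 0 < p.ell := Nat.pow_pos (L_pos p hp)

theorem tcL_cost (hp : p.Ok) (om : ℕ → Nz p.d) (i t' : ℕ) :
    ENNReal.ofReal (Real.exp (-(2 * p.d * Real.log p.ell + p.d * Real.log (16 * p.L)))) ≤
      p.cT 1 (p.tcL om i t') := by
  have hL := L_pos p hp
  have he := ell_pos p hp
  have hLr : (0 : ℝ) < p.L := by exact_mod_cast hL
  have her : (0 : ℝ) < p.ell := by exact_mod_cast he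
  unfold Par.cT Par.tcL
  rw [if_neg one_ne_zero, if_pos rfl]
  simp only [and_self, if_true, one_mul]
  rw [uw_emd _ (by positivity), uw_emd _ (by positivity),
    ← ENNReal.ofReal_mul (Real.exp_pos _).le, ← Real.exp_add]
  refine le_of_eq ?_
  congr 2
  push_cast
  have l1 : Real.log (4 * (p.ell : ℝ)) = Real.log 4 + Real.log p.ell :=
    Real.log_mul (by norm_num) her.ne'
  have l2 : Real.log (4 * (p.ell : ℝ) * p.L) = Real.log 4 + Real.log p.ell + Real.log p.L := by
    rw [Real.log_mul (by positivity) hLr.ne', l1]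
  have l3 : Real.log (16 * (p.L : ℝ)) = Real.log 16 + Real.log p.L :=
    Real.log_mul (by norm_num) hLr.ne'
  rw [l2, l1, l3]
  have h16 : Real.log 16 = 2 * Real.log 4 := by
    rw [show (16 : ℝ) = 4 ^ 2 by norm_num, Real.log_pow]; norm_num
  rw [h16]
  ring

theorem tcS_cost (hp : p.Ok) (om : ℕ → Nz p.d) (i T : ℕ) :
    ENNReal.ofReal (Real.exp (-(1 + 3 * p.d + 2 * p.d * Real.log p.CR +
      p.nring om i (T - p.tau i) (T + p.W i) * (1 + 2 * p.d)))) ≤
      p.cT 2 (p.tcS om i T) := by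
  have hL := L_pos p hp
  have hLr : (0 : ℝ) < p.L := by exact_mod_cast hL
  have hR : 0 < p.R := by have := hp.hR; linarith
  have hCR : 0 < p.CR := by
    unfold Par.CR
    exact Nat.ceil_pos.2 (by positivity)
  have hCRr : (0 : ℝ) < p.CR := by exact_mod_cast hCR
  unfold Par.cT Par.tcS
  rw [if_neg (by norm_num), if_neg (by norm_num)]
  simp only []
  generalize p.nring om i (T - p.tau i) (T + p.W i) = Nw
  rw [uw_emd _ (by positivity), uw_emd _ (by positivity), uw_emd _ (by positivity),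
    uw_emd _ (by positivity), gw_eq,
    ← ENNReal.ofReal_mul (Real.exp_pos _).le, ← Real.exp_add,
    ← ENNReal.ofReal_mul (Real.exp_pos _).le, ← Real.exp_add,
    ← ENNReal.ofReal_mul (Real.exp_pos _).le, ← Real.exp_add,
    ← ENNReal.ofReal_mul (Real.exp_pos _).le, ← Real.exp_add]
  refine ENNReal.ofReal_le_ofReal (Real.exp_le_exp.2 ?_)
  push_cast
  rw [Real.log_mul (by positivity) (by positivity), Real.log_pow]
  have hl2 : Real.log 2 ≤ 1 := by
    have := Real.log_two_lt_d9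
    linarith
  have hl3 : Real.log 3 ≤ 3 / 2 := by
    rw [Real.log_le_iff_le_exp (by norm_num)]
    have h1 : Real.exp (3 / 2) = Real.exp 1 * Real.exp (1 / 2) := by
      rw [← Real.exp_add]; norm_num
    have h2 := Real.exp_one_gt_d9
    have h3 := Real.add_one_le_exp (1 / 2 : ℝ)
    rw [h1]
    nlinarith [Real.exp_pos (1 / 2 : ℝ)]
  have hd : (0 : ℝ) ≤ p.d := Nat.cast_nonneg _
  have hN : (0 : ℝ) ≤ Nw := Nat.cast_nonneg _
  have e1 : (Nw : ℝ) * Real.log 2 ≤ Nw := by nlinarith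
  have e2 : (p.d : ℝ) * Real.log 3 ≤ p.d * (3 / 2) := mul_le_mul_of_nonneg_left hl3 hd
  have e3 : (p.d : ℝ) * (Nw * Real.log 2) ≤ p.d * Nw := mul_le_mul_of_nonneg_left e1 hd
  nlinarith

end KDB.I.C3
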