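import Pool.Agent.Helper37.KDB.Extra
import Pool.Agent.Helper37.KDB.St.D1
import Pool.Agent.Helper37.KDB.St.D2
import Pool.Agent.Helper37.KDB.St.D5
import Pool.Agent.Helper37.KDB.St.D6

/-! Project KDB, piece D8. -/

set_option autoImplicit false

namespace KDB.I.D8

open MeasureTheory KDB
open scoped ENNReal

variable (p : Par)

/-- in a clean window a step which is not a ring of level `i` has level `< i` -/
theorem lv_le_of_clean (om : ℕ → Nz p.d) (i a c : ℕ) (hc : Clean p om i a c) (j : ℕ)
    (hj : j ∈ Finset.Ico a c) (hr : (om j).lab ≠ i + 2) : p.lv (om j) ≤ i := by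
  have h := hc j hj
  unfold Par.lv
  by_cases h0 : (om j).lab = 0
  · simp [h0]
  · by_cases h1 : (om j).lab = 1
    · have := h.1 h1
      unfold Par.lv at this
      simpa [h0, h1] using this
    · rw [if_neg h0, if_neg h1]
      have := h.2 (by omega)
      omega

theorem lv_ring (z : Nz p.d) (i : ℕ) (hr : z.lab = i + 2) : p.lv z = i + 1 := by
  unfold Par.lv
  rw [if_neg (by omega), if_neg (by omega)]
  omega

theorem sz_ring (z : Nz p.d) (i : ℕ) (hr : z.lab = i + 2) :
    p.sz z = p.L * p.rho (i + 1) := by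
  unfold Par.sz
  rw [if_neg (by omega), if_neg (by omega)]
  congr 2
  omega

theorem rho_pos (hp : p.Ok) (k : ℕ) : 0 < p.rho k := by
  unfold Par.rho Par.ell
  have : (0 : ℝ) < p.L := by
    have := hp.hL
    exact_mod_cast (by omega : 0 < p.L)
  push_cast
  positivity

theorem sz_nonneg (hp : p.Ok) (z : Nz p.d) : 0 ≤ p.sz z := by
  unfold Par.sz
  split_ifs
  · exact le_refl 0
  · exact norm_nonneg _
  · exact mul_nonneg (Nat.cast_nonneg _) (rho_pos p hp _).le

theorem run_succ_snd (om : ℕ → Nz p.d) (j : ℕ) :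
    (p.run om (j + 1)).2 = (p.run om j).2 +
      p.jump j (om j) (p.run om (j + 1)).1 (p.run om j).2 := rfl

theorem run_succ_fst (om : ℕ → Nz p.d) (j : ℕ) :
    (p.run om (j + 1)).1 = (p.run om j).1 + p.h • (p.run om j).2 := rfl

theorem cap_b (hp : p.Ok) (om : ℕ → Nz p.d) (hv : ∀ j, p.Valid j (om j)) (i T : ℕ)
    (hi : i < p.n) (hT : T % p.tau (i + 1) = p.L / 2 * p.tau i)
    (hc : Clean p om i T (T + p.W i))
    (hpl : ∃ j ∈ Finset.Ico T (T + p.W i), (om j).lab = i + 2 ∧ (om j).sb = true) :
    ∃ A : Fin p.d → ℤ, ‖(p.run om (T + p.W i)).2 - p.rho (i + 1) • Par.toV A‖ ≤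
      2 ^ p.nring om i T (T + p.W i) * (2 + p.nse om i T (T + p.W i) / p.rho i) *
        p.rho i := by
  have hrho := rho_pos p hp i
  have key := doubling
    (fun j D => ∃ A : Fin p.d → ℤ,
      ‖(p.run om j).2 - p.rho (i + 1) • Par.toV A‖ ≤ D * p.rho i)
    (fun j D D' hDD ⟨A, hA⟩ => ⟨A, hA.trans (mul_le_mul_of_nonneg_right hDD hrho.le)⟩)
    T (T + p.W i) (fun j => (om j).lab = i + 2) (fun j => (om j).sb = true)
    (fun j => p.sz (om j) / p.rho i)
    (fun j => div_nonneg (sz_nonneg p hp _) hrho.le)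
    (fun j hj hr D hD => (ring_b p hp om hv i T j hi hT hj hr).2 D hD)
    (fun j hj hr hpl => by
      obtain ⟨A, hA⟩ := (ring_b p hp om hv i T j hi hT hj hr).1 hpl
      exact ⟨A, by rw [one_mul]; exact hA⟩)
    (fun j hj hr D ⟨A, hA⟩ => by
      refine ⟨A, ?_⟩
      have h1 := jump_le p hp j (om j) (hv j) (p.run om (j + 1)).1 (p.run om j).2
      rw [run_succ_snd]
      have h2 : (p.run om j).2 + p.jump j (om j) (p.run om (j + 1)).1 (p.run om j).2 -
          p.rho (i + 1) • Par.toV A = ((p.run om j).2 - p.rho (i + 1) • Par.toV A) +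
          p.jump j (om j) (p.run om (j + 1)).1 (p.run om j).2 := by abel
      rw [h2]
      refine (norm_add_le _ _).trans ?_
      have h3 : (D + p.sz (om j) / p.rho i) * p.rho i = D * p.rho i + p.sz (om j) := by
        field_simp
      rw [h3]
      exact add_le_add hA h1)
    hpl
  obtain ⟨A, hA⟩ := key
  refine ⟨A, hA.trans (le_of_eq ?_)⟩
  unfold Par.nring Par.nse
  congr 3
  rw [Finset.sum_div]
  refine Finset.sum_congr rfl fun j hj => ?_
  by_cases hr : (om j).lab = i + 2
  · have := lv_ring p (om j) i hr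
    rw [if_pos hr, if_neg (by omega), zero_div]
  · have := lv_le_of_clean p om i T (T + p.W i) hc j hj hr
    rw [if_neg hr, if_pos this]

/-- drift of the position during the b-window -/
theorem cap_c (hp : p.Ok) (om : ℕ → Nz p.d) (hv : ∀ j, p.Valid j (om j)) (i T : ℕ)
    (hi : i < p.n) (hc : Clean p om i T (T + p.W i)) :
    ‖(p.run om (T + p.W i)).1 - (p.run om T).1 - (p.h * p.W i) • (p.run om (T + p.W i)).2‖ ≤
      (p.nring om i T (T + p.W i) * p.L + p.nse om i T (T + p.W i) / p.rho i) * p.xi i := by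
  have hrho := rho_pos p hp i
  have hLpos : (0 : ℝ) < p.L := by
    have := hp.hL
    exact_mod_cast (by omega : 0 < p.L)
  have hHpos : (0 : ℝ) < p.H := by
    have := hp.hH
    exact_mod_cast (by omega : 0 < p.H)
  have hell : (1 : ℝ) ≤ (p.ell : ℝ) := by
    have : 1 ≤ p.ell := Nat.one_le_pow _ _ (by have := hp.hL; omega)
    exact_mod_cast this
  have hh : 0 < p.h := by unfold Par.h; positivity
  set S : ℝ := ∑ j ∈ Finset.Ico T (T + p.W i), p.sz (om j) with hS
  have hS0 : 0 ≤ S := Finset.sum_nonneg fun j _ => sz_nonneg p hp _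
  -- the drift
  have hdrift : ∀ k : ℕ, k ≤ p.W i →
      ‖(p.run om (T + k)).1 - (p.run om T).1 - (p.h * k) • (p.run om (T + p.W i)).2‖ ≤
        p.h * k * S := by
    intro k
    induction k with
    | zero => intro _; simp
    | succ k ih =>
      intro hk
      have ih' := ih (by omega)
      have e1 : (p.run om (T + (k + 1))).1 = (p.run om (T + k)).1 + p.h • (p.run om (T + k)).2 :=
        run_succ_fst p om (T + k)
      have e2 : (p.run om (T + (k + 1))).1 - (p.run om T).1 -
          (p.h * ((k + 1 : ℕ) : ℝ)) • (p.run om (T + p.W i)).2 =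
          ((p.run om (T + k)).1 - (p.run om T).1 - (p.h * k) • (p.run om (T + p.W i)).2) -
          p.h • ((p.run om (T + p.W i)).2 - (p.run om (T + k)).2) := by
        rw [e1]
        push_cast
        module
      rw [e2]
      refine (norm_sub_le _ _).trans ?_
      have e3 : ‖p.h • ((p.run om (T + p.W i)).2 - (p.run om (T + k)).2)‖ ≤ p.h * S := by
        rw [norm_smul, Real.norm_of_nonneg hh.le]
        refine mul_le_mul_of_nonneg_left ?_ hh.le
        refine (vel_le p hp om hv (T + k) (T + p.W i) (by omega)).trans ?_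
        rw [hS]
        refine Finset.sum_le_sum_of_subset_of_nonneg ?_ fun j _ _ => sz_nonneg p hp _
        exact Finset.Ico_subset_Ico (by omega) le_rfl
      push_cast
      have e4 : p.h * ((k : ℝ) + 1) * S = p.h * k * S + p.h * S := by ring
      rw [e4]
      exact add_le_add ih' e3
  refine (hdrift (p.W i) le_rfl).trans ?_
  -- the sum of the sizes
  have hSeq : S = p.nring om i T (T + p.W i) * (p.L * p.rho (i + 1)) +
      p.nse om i T (T + p.W i) := by
    rw [hS]
    unfold Par.nring Par.nse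
    rw [Finset.card_filter]
    push_cast
    rw [Finset.sum_mul, ← Finset.sum_add_distrib]
    refine Finset.sum_congr rfl fun j hj => ?_
    by_cases hr : (om j).lab = i + 2
    · have h1 := lv_ring p (om j) i hr
      rw [if_pos hr, if_neg (by omega), sz_ring p (om j) i hr]
      ring
    · have h1 := lv_le_of_clean p om i T (T + p.W i) hc j hj hr
      rw [if_neg hr, if_pos h1]
      ring
  have hhW : p.h * p.W i = (p.L : ℝ) ^ i / p.ell := by
    unfold Par.h Par.W Par.ell
    push_cast
    field_simp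
  have hnse : 0 ≤ p.nse om i T (T + p.W i) := by
    unfold Par.nse
    refine Finset.sum_nonneg fun j _ => ?_
    split_ifs
    · exact sz_nonneg p hp _
    · exact le_rfl
  have hxi : p.xi i = p.rho i * (p.L : ℝ) ^ i := xi_eq p i
  have hrs : p.rho (i + 1) = p.rho i * p.ell := by
    unfold Par.rho
    rw [pow_succ]
  rw [hhW, hSeq, hxi, hrs]
  have hLi : 0 < (p.L : ℝ) ^ i := by positivity
  have e5 : (p.L : ℝ) ^ i / p.ell * (p.nring om i T (T + p.W i) * (p.L * (p.rho i * p.ell)) +
      p.nse om i T (T + p.W i)) = p.nring om i T (T + p.W i) * p.L * (p.rho i * (p.L : ℝ) ^ i) +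
      (p.L : ℝ) ^ i * p.nse om i T (T + p.W i) / p.ell := by
    field_simp
  have e6 : (p.nring om i T (T + p.W i) * p.L + p.nse om i T (T + p.W i) / p.rho i) *
      (p.rho i * (p.L : ℝ) ^ i) = p.nring om i T (T + p.W i) * p.L * (p.rho i * (p.L : ℝ) ^ i) +
      (p.L : ℝ) ^ i * p.nse om i T (T + p.W i) := by
    field_simp
  rw [e5, e6]
  refine add_le_add le_rfl ?_
  exact div_le_self (mul_nonneg hLi.le hnse) hell

end KDB.I.D8
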